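import Pool.Agent.H14.T1.S3

/-!
# NF: statements of the modules, part 3 (reciprocity over number fields)

`A`, `B` are the matrices of the forms of a class and of the trivial class over the number field
`K`; the form `A ⊕ -B` is transferred to `ℚ` by the trace; over `ℚ` it is near to `B' ⊕ -B'` at
`2` and at infinity.
-/

set_option autoImplicit false

namespace Pool.NF

open Polynomial Matrix Pool.HYP Pool.TOW Pool.AVS Pool.T1 IsDedekindDomain NumberField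

section Defs3

/-- The rational numbers integral at `p`. -/
def IZ (p : ℕ) : Set ℚ := {x | ¬ p ∣ x.den}

/-- The residue modulo `p` of a rational number integral at `p`. -/
def rz (p : ℕ) (x : ℚ) : ZMod p := (x.num : ZMod p) * (x.den : ZMod p)⁻¹

/-- Local data at `p` for the form `G`: a lattice, given by `g`, and `2 m` vectors `u e` of the dual
lattice, generating it modulo the lattice, with products in `ℤ / p`; `δ` is `(-1)^m` times the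
determinant of the residues of `p` times the products. -/
def LocZ {ι : Type} [Fintype ι] [DecidableEq ι] (p : ℕ) (G : Matrix ι ι ℚ) (m : ℕ)
    (δ : ZMod p) : Prop :=
  ∃ (g : Matrix ι ι ℚ) (κ : Type) (_ : Fintype κ) (_ : DecidableEq κ) (u : κ → ι → ℚ),
    g.det ≠ 0 ∧ Fintype.card κ = 2 * m ∧ MInI (IZ p) (gᵀ * G * g) ∧
    (∀ e i, (gᵀ *ᵥ (G *ᵥ u e)) i ∈ IZ p) ∧
    (∀ e e', (p : ℚ) * (u e ⬝ᵥ (G *ᵥ u e')) ∈ IZ p) ∧
    (∀ x : ι → ℚ, (∀ i, (gᵀ *ᵥ (G *ᵥ x)) i ∈ IZ p) →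
      (∀ e, x ⬝ᵥ (G *ᵥ u e) ∈ IZ p) → ∀ i, (g⁻¹ *ᵥ x) i ∈ IZ p) ∧
    δ = (-1) ^ m * (Matrix.of fun e e' => rz p ((p : ℚ) * (u e ⬝ᵥ (G *ᵥ u e')))).det

/-- The number of the entries of odd valuation. -/
def rQ {ι : Type} [Fintype ι] (p : ℕ) (x : ι → ℚ) : ℕ :=
  (Finset.univ.filter fun i => Odd (padicValRat p (x i))).card

/-- `(-1)^m` times the product of the residues of the `2 m` entries of odd valuation. -/
def sQ {ι : Type} [Fintype ι] (p : ℕ) (x : ι → ℚ) : ZMod p :=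
  (-1) ^ (rQ p x / 2) * ∏ i ∈ Finset.univ.filter (fun i => Odd (padicValRat p (x i))),
    rz p (x i / (p : ℚ) ^ padicValRat p (x i))

/-- `kᵀ A k` and `B` are as near as we please (any index type). -/
def NearM {L : Type} [Field L] {ι : Type} [Fintype ι] [DecidableEq ι] (I : Set L)
    (A B : Matrix ι ι L) : Prop :=
  ∀ a : L, a ≠ 0 → ∃ k : Matrix ι ι L, k.det ≠ 0 ∧ ∀ i j, (kᵀ * A * k - B) i j / a ∈ I

/-- Congruence over the real numbers. -/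
def CongR {ι : Type} [Fintype ι] [DecidableEq ι] (A B : Matrix ι ι ℝ) : Prop :=
  ∃ k : Matrix ι ι ℝ, k.det ≠ 0 ∧ kᵀ * A * k = B

/-- A rational matrix as a real matrix. -/
noncomputable def mR {ι : Type} (A : Matrix ι ι ℚ) : Matrix ι ι ℝ := A.map (Rat.castHom ℝ)

/-- All entries of `C` are at most `ε`, and divisible by `a` at `2`. -/
def NearZ {ι : Type} (ε a : ℚ) (C : Matrix ι ι ℚ) : Prop :=
  ∀ i j, |C i j| ≤ ε ∧ C i j / a ∈ IZ 2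

section K

variable {K : Type} [Field K] [NumberField K]

/-- The prime `P` lies above `p`. -/
def Abv (p : ℕ) (P : HeightOneSpectrum (𝓞 K)) : Prop := (p : 𝓞 K) ∈ P.asIdeal

/-- The elements of `K` regular at all primes above `p`. -/
def IS (K : Type) [Field K] [NumberField K] (p : ℕ) : Set K :=
  {a | ∀ P : HeightOneSpectrum (𝓞 K), Abv p P → a ∈ RP K P}

/-- `ω` consists of integers and its discriminant is a unit at `p`. -/
def Good {n : ℕ} (ω : Module.Basis (Fin n) ℚ K) (p : ℕ) : Prop :=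
  (∀ i, IsIntegral ℤ (ω i)) ∧ UI (IZ p) (trd ω).det

end K

end Defs3

/-! ### Over `ℚ` -/

/-- IZV: `IZ p` is a discrete valuation ring. -/
def IZVStmt : Prop :=
  ∀ p : ℕ, p.Prime → ∃ O : ValuationSubring ℚ, (O : Set ℚ) = IZ p ∧ Unif O (p : ℚ) ∧
    (∀ x : ℚ, x ≠ 0 → UI (O : Set ℚ) (x / (p : ℚ) ^ padicValRat p x)) ∧
    (∀ x ∈ IZ p, rz p x = 0 ↔ x / p ∈ IZ p) ∧
    (∀ x ∈ IZ p, ∀ y ∈ IZ p, rz p (x + y) = rz p x + rz p y ∧ rz p (x * y) = rz p x * rz p y) ∧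
    rz p 1 = 1 ∧ ∀ z : ZMod p, ∃ x : ℤ, rz p x = z

/-- HRQ: the product formula for diagonal forms (85).  (For `r` even `IsSquare (s_p(x))` says that
the product over `i < j` of the Hilbert symbols `(x_i, x_j)_p` is `1`; the quotient of this product
for `(b c, -b)` and for `(b, -b)` is a product of symbols `(c_i, y)_p`, and for `c > 0`,
`c = 1 mod 8` the product over the odd `p` of `(c, y)_p` is `1` by quadratic reciprocity.) -/
def HRQStmt : Prop :=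
  ∀ (M : ℕ) (b c : Fin M → ℚ), (∀ i, b i ≠ 0) → (∀ i, 0 < c i) →
    (∀ i, (c i - 1) / 8 ∈ IZ 2) →
    (∀ p : ℕ, p.Prime → p ≠ 2 → Even (rQ p c)) →
    {p : ℕ | p.Prime ∧ p ≠ 2 ∧
      ¬ IsSquare (sQ p (Sum.elim (fun i => b i * c i) (fun i => -b i)))}.Finite ∧
    Even {p : ℕ | p.Prime ∧ p ≠ 2 ∧
      ¬ IsSquare (sQ p (Sum.elim (fun i => b i * c i) (fun i => -b i)))}.ncard

/-- DGQ: local data for a diagonal form.  (Lattice: `p^(-k) e_i` for valuation `2 k` or `2 k + 1`;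
`u = p^(-k-1) e_i` for valuation `2 k + 1`.) -/
def DGQStmt : Prop :=
  ∀ (p : ℕ), p.Prime → ∀ (ι : Type) [Fintype ι] [DecidableEq ι] (x : ι → ℚ),
    (∀ i, x i ≠ 0) → Even (rQ p x) →
    LocZ p (Matrix.diagonal x) (rQ p x / 2) (sQ p x) ∧ sQ p x ≠ 0

/-- UNQ: the square class of `δ` does not depend on the lattice.  (In `(Λ ⊕ Λ')^# / (Λ ⊕ Λ')` for
`G ⊕ -G` the classes of the `(x, x)`, `x` in `Λ^# ∩ Λ'^#`, are a totally isotropic subspace of half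
the dimension over `ZMod p`; `met_sq` of H14/T1/Met.) -/
def UNQStmt : Prop :=
  ∀ (p : ℕ), p.Prime → ∀ (ι : Type) [Fintype ι] [DecidableEq ι] (G : Matrix ι ι ℚ), Gᵀ = G →
    G.det ≠ 0 → ∀ (m m' : ℕ) (δ δ' : ZMod p), LocZ p G m δ → LocZ p G m' δ' → δ ≠ 0 → δ' ≠ 0 →
    (IsSquare δ ↔ IsSquare δ')

/-- LBQ: change of the basis, addition of a form with a self-dual lattice, self-dual lattices. -/
def LBQStmt : Prop :=
  ∀ (p : ℕ), p.Prime → ∀ (ι κ : Type) [Fintype ι] [DecidableEq ι] [Fintype κ] [DecidableEq κ]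
    (G h : Matrix ι ι ℚ) (G' h' : Matrix κ κ ℚ) (m : ℕ) (δ : ZMod p), h.det ≠ 0 →
    (LocZ p (hᵀ * G * h) m δ ↔ LocZ p G m δ) ∧
    (GInI (IZ p) (hᵀ * G * h) → LocZ p G 0 1) ∧
    (LocZ p G m δ → h'.det ≠ 0 → GInI (IZ p) (h'ᵀ * G' * h') →
      LocZ p (Matrix.fromBlocks G 0 0 G') m δ)

/-- GSQ: Gram-Schmidt for a form near to `B`. -/
def GSQStmt : Prop :=
  ∀ (M : ℕ) (B : Matrix (Fin M) (Fin M) ℚ), Bᵀ = B → B.det ≠ 0 →
    ∃ (h : Matrix (Fin M) (Fin M) ℚ) (b : Fin M → ℚ) (ε a : ℚ), h.det ≠ 0 ∧ (∀ i, b i ≠ 0) ∧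
      0 < ε ∧ a ≠ 0 ∧ hᵀ * B * h = Matrix.diagonal b ∧
      ∀ A : Matrix (Fin M) (Fin M) ℚ, Aᵀ = A → NearZ ε a (A - B) →
        ∃ (u : Matrix (Fin M) (Fin M) ℚ) (c : Fin M → ℚ), u.det ≠ 0 ∧ (∀ i, 0 < c i) ∧
          (∀ i, (c i - 1) / 8 ∈ IZ 2) ∧ uᵀ * A * u = Matrix.diagonal (fun i => b i * c i)

/-- NEAQ: nearness at `2` and at infinity at the same time.  (`r k + (1 - r) k'`, `k` near to a real
congruence, `r` near to `1` at infinity and to `0` at `2`.) -/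
def NEAQStmt : Prop :=
  ∀ (ι : Type) [Fintype ι] [DecidableEq ι] (A B : Matrix ι ι ℚ), NearM (IZ 2) A B →
    CongR (mR A) (mR B) → ∀ ε a : ℚ, 0 < ε → a ≠ 0 →
    ∃ k : Matrix ι ι ℚ, k.det ≠ 0 ∧ NearZ ε a (kᵀ * A * k - B)

/-- RCLQ: reciprocity over `ℚ`. -/
def RCLZStmt : Prop :=
  ∀ (ι : Type) [Fintype ι] [DecidableEq ι] (A B : Matrix ι ι ℚ), Aᵀ = A → Bᵀ = B →
    A.det ≠ 0 → B.det ≠ 0 → IsSquare (A.det * B.det) → NearM (IZ 2) A B →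
    CongR (mR A) (mR B) →
    ∀ (T : Finset ℕ) (m : ℕ → ℕ) (δ : ∀ p : ℕ, ZMod p), (∀ p ∈ T, p.Prime ∧ p ≠ 2) →
    (∀ p ∈ T, LocZ p (Matrix.fromBlocks A 0 0 (-B)) (m p) (δ p) ∧ δ p ≠ 0) →
    (∀ p : ℕ, p.Prime → p ≠ 2 → p ∉ T → ∃ g : Matrix (ι ⊕ ι) (ι ⊕ ι) ℚ, g.det ≠ 0 ∧
      GInI (IZ p) (gᵀ * Matrix.fromBlocks A 0 0 (-B) * g)) →
    Even {p | p ∈ T ∧ ¬ IsSquare (δ p)}.ncard

/-- RCLQ from the modules. -/
def RCLZAStmt : Prop :=
  HRQStmt → DGQStmt → UNQStmt → LBQStmt → GSQStmt → NEAQStmt → IZVStmt → RCLZStmt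

/-! ### Primes of `K` -/

/-- SEMAN: the primes above `p`. -/
def SEMANStmt : Prop :=
  ∀ (K : Type) [Field K] [NumberField K],
    (∀ m : ℕ, m ≠ 0 → {P : HeightOneSpectrum (𝓞 K) | Abv m P}.Finite) ∧
    (∀ p : ℕ, p.Prime → ∃ P : HeightOneSpectrum (𝓞 K), Abv p P) ∧
    (∀ P : HeightOneSpectrum (𝓞 K), ∃ p : ℕ, p.Prime ∧ Abv p P ∧
      ∀ q : ℕ, q.Prime → Abv q P → q = p) ∧
    (∀ p : ℕ, p.Prime → ∀ P : HeightOneSpectrum (𝓞 K), Abv p P →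
      (∀ x : ℚ, (x : K) ∈ RP K P ↔ x ∈ IZ p) ∧ ∀ j : ℤ, (j : 𝓞 K) ∈ P.asIdeal ↔ (p : ℤ) ∣ j)

/-- SEMBN: the elements regular at all primes above `p`. -/
def SEMBNStmt : Prop :=
  ∀ (K : Type) [Field K] [NumberField K] (p : ℕ), p.Prime → ∀ a : K, a ∈ IS K p →
    (∃ h : ℤ, ¬ (p : ℤ) ∣ h ∧ IsIntegral ℤ ((h : K) * a)) ∧
    Algebra.trace ℚ K a ∈ IZ p ∧ Algebra.norm ℚ a ∈ IZ p

/-- SEMCN: a basis at the primes not dividing the discriminant. -/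
def SEMCNStmt : Prop :=
  ∀ (K : Type) [Field K] [NumberField K] (n : ℕ) (ω : Module.Basis (Fin n) ℚ K) (p : ℕ),
    p.Prime → Good ω p →
    ∀ a : K, (a ∈ IS K p ↔ ∀ i, ω.repr a i ∈ IZ p) ∧
      (a ∈ IS K p ↔ ∀ i, Algebra.trace ℚ K (a * ω i) ∈ IZ p)

/-- BASN: existence of `ω`. -/
def BASNStmt : Prop :=
  ∀ (K : Type) [Field K] [NumberField K],
    ∃ (n : ℕ) (ω : Module.Basis (Fin n) ℚ K), (∀ i, IsIntegral ℤ (ω i)) ∧
      {p : ℕ | p.Prime ∧ ¬ Good ω p}.Finite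

/-! ### The transferred form -/

/-- GDUN: a good prime, self-dual lattices. -/
def GDUNStmt : Prop :=
  ∀ (K : Type) [Field K] [NumberField K] (n N : ℕ) (ω : Module.Basis (Fin n) ℚ K) (p : ℕ),
    p.Prime → Good ω p → ∀ A : Matrix (Fin N) (Fin N) K,
    (∀ P : HeightOneSpectrum (𝓞 K), Abv p P → SD (RP K P) A) →
    ∃ g : Matrix (Fin N × Fin n) (Fin N × Fin n) ℚ, g.det ≠ 0 ∧
      GInI (IZ p) (gᵀ * trm ω A * g)

/-- BDPN: an odd bad prime. -/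
def BDPNStmt : Prop :=
  ∀ (K : Type) [Field K] [NumberField K] (n N : ℕ) (ω : Module.Basis (Fin n) ℚ K) (p : ℕ),
    p.Prime → p ≠ 2 → ∀ A B : Matrix (Fin N) (Fin N) K, Aᵀ = A → Bᵀ = B → B.det ≠ 0 →
    (∀ P : HeightOneSpectrum (𝓞 K), Abv p P → Near (RP K P) A B) →
    ∃ g : Matrix ((Fin N × Fin n) ⊕ (Fin N × Fin n)) ((Fin N × Fin n) ⊕ (Fin N × Fin n)) ℚ,
      g.det ≠ 0 ∧ GInI (IZ p) (gᵀ * Matrix.fromBlocks (trm ω A) 0 0 (-trm ω B) * g)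

/-- LDTN: a good prime, the main computation (as LDT of T1). -/
def LDTNStmt : Prop :=
  ∀ (K : Type) [Field K] [NumberField K] (n g : ℕ) (ω : Module.Basis (Fin n) ℚ K) (p : ℕ),
    p.Prime → p ≠ 2 → Good ω p → ∀ (T : Finset (HeightOneSpectrum (𝓞 K)))
    (ϖ : HeightOneSpectrum (𝓞 K) → 𝓞 K),
    (∀ P ∈ T, ϖ P ∈ P.asIdeal ∧ ϖ P ∉ P.asIdeal ^ 2) →
    ∀ A : Matrix (Fin (2 * g + 1)) (Fin (2 * g + 1)) K, Aᵀ = A → MIn (IS K p) A →
    (∀ P : HeightOneSpectrum (𝓞 K), Abv p P → P ∉ T → UI (RP K P) A.det) →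
    (∀ P ∈ T, Abv p P → BlkQ (RP K P) (ϖ P : K) A) →
    ∃ (m : ℕ) (δ : ZMod p), δ ≠ 0 ∧ LocZ p (trm ω A) m δ ∧
      (IsSquare δ ↔ Even {P | P ∈ T ∧ Abv p P ∧
        ¬ SqQ (RP K P) (ϖ P : K) ((-1) ^ g * dsc (ϖ P : K) A)}.ncard)

/-- LDPN: a good prime. -/
def LDPNStmt : Prop :=
  ∀ (K : Type) [Field K] [NumberField K] (n g : ℕ) (ω : Module.Basis (Fin n) ℚ K) (p : ℕ),
    p.Prime → p ≠ 2 → Good ω p → ∀ (T : Finset (HeightOneSpectrum (𝓞 K)))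
    (ϖ : HeightOneSpectrum (𝓞 K) → 𝓞 K) (d : HeightOneSpectrum (𝓞 K) → K),
    (∀ P ∈ T, ϖ P ∈ P.asIdeal ∧ ϖ P ∉ P.asIdeal ^ 2) →
    ∀ A B : Matrix (Fin (2 * g + 1)) (Fin (2 * g + 1)) K, Aᵀ = A → Bᵀ = B → A.det ≠ 0 →
    B.det ≠ 0 → (∀ P : HeightOneSpectrum (𝓞 K), Abv p P → SD (RP K P) B) →
    (∀ P : HeightOneSpectrum (𝓞 K), Abv p P → P ∉ T → SD (RP K P) A) →
    (∀ P ∈ T, Abv p P → ∃ k : Matrix (Fin (2 * g + 1)) (Fin (2 * g + 1)) K, k.det ≠ 0 ∧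
      BlkQ (RP K P) (ϖ P : K) (kᵀ * A * k) ∧ d P = dsc (ϖ P : K) (kᵀ * A * k)) →
    ∃ (m : ℕ) (δ : ZMod p), δ ≠ 0 ∧
      LocZ p (Matrix.fromBlocks (trm ω A) 0 0 (-trm ω B)) m δ ∧
      (IsSquare δ ↔ Even {P | P ∈ T ∧ Abv p P ∧
        ¬ SqQ (RP K P) (ϖ P : K) ((-1) ^ g * d P)}.ncard)

/-! ### Nearness at `2`, and the real place -/

/-- BD2N: at `2`. -/
def BD2NStmt : Prop :=
  ∀ (K : Type) [Field K] [NumberField K] (n N : ℕ) (ω : Module.Basis (Fin n) ℚ K)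
    (A B : Matrix (Fin N) (Fin N) K),
    (∀ P : HeightOneSpectrum (𝓞 K), Abv 2 P → Near (RP K P) A B) →
    NearM (IZ 2) (trm ω A) (trm ω B)

/-- BDRN: the real place.  (With `W (σ, i) (i, j) = σ (ω j)` the matrix of the transfer is
`Wᵀ diag (σ A) W`; `k = W⁻¹ diag (k_σ) W` is real if `k` for the conjugate of `σ` is the conjugate;
over the complex numbers nondegenerate symmetric matrices are congruent.) -/
def BDRNStmt : Prop :=
  ∀ (K : Type) [Field K] [NumberField K] (n N : ℕ) (ω : Module.Basis (Fin n) ℚ K)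
    (A B : Matrix (Fin N) (Fin N) K), Aᵀ = A → Bᵀ = B → A.det ≠ 0 → B.det ≠ 0 →
    (∀ σ : K →+* ℝ, CongR (A.map σ) (B.map σ)) → CongR (mR (trm ω A)) (mR (trm ω B))

/-! ### Result -/

/-- RCPN: reciprocity for a pair of forms over a number field. -/
def RCPNStmt : Prop :=
  ∀ (K : Type) [Field K] [NumberField K],
    ∃ Ram : Finset (HeightOneSpectrum (𝓞 K)), ∀ (g : ℕ)
    (T : Finset (HeightOneSpectrum (𝓞 K))) (ϖ : HeightOneSpectrum (𝓞 K) → 𝓞 K)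
    (d : HeightOneSpectrum (𝓞 K) → K), Disjoint T Ram →
    (∀ P ∈ T, ϖ P ∈ P.asIdeal ∧ ϖ P ∉ P.asIdeal ^ 2) →
    ∀ A B : Matrix (Fin (2 * g + 1)) (Fin (2 * g + 1)) K, Aᵀ = A → Bᵀ = B → A.det ≠ 0 →
    B.det ≠ 0 → IsSquare (A.det * B.det) →
    (∀ σ : K →+* ℝ, CongR (A.map σ) (B.map σ)) →
    (∀ P ∈ Ram, Near (RP K P) A B) →
    (∀ P : HeightOneSpectrum (𝓞 K), P ∉ Ram → SD (RP K P) B) →
    (∀ P : HeightOneSpectrum (𝓞 K), P ∉ Ram → P ∉ T → SD (RP K P) A) →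
    (∀ P ∈ T, ∃ k : Matrix (Fin (2 * g + 1)) (Fin (2 * g + 1)) K, k.det ≠ 0 ∧
      BlkQ (RP K P) (ϖ P : K) (kᵀ * A * k) ∧ d P = dsc (ϖ P : K) (kᵀ * A * k)) →
    Even {P | P ∈ T ∧ ¬ SqQ (RP K P) (ϖ P : K) ((-1) ^ g * d P)}.ncard

/-- RCPN from the modules. -/
def RCPNAStmt : Prop :=
  RCLZStmt → TRFStmt → SEMANStmt → BASNStmt → GDUNStmt → BDPNStmt → LDPNStmt → LBQStmt →
    IZVStmt → BD2NStmt → BDRNStmt → RCPNStmt

/-- CMP2: the completion at a prime (also above `2`). -/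
def CMP2Stmt : Prop :=
  ∀ (K : Type) [Field K] [NumberField K] (P : HeightOneSpectrum (𝓞 K)),
    ∃ (L : Type) (_ : Field L) (O : ValuationSubring L) (ι : K →+* L), Cpl K L O ι ∧
      ∀ x : K, ι x ∈ O ↔ x ∈ RP K P

/-- ISO2: over a completion two ternary forms with isotropic vectors and the same determinant up to
squares are congruent; nearness over `K`. -/
def ISO2Stmt : Prop :=
  ∀ (K : Type) [Field K] (I : Set K) (L : Type) [Field L] (O : ValuationSubring L) (ι : K →+* L),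
    Cpl K L O ι → (∀ x : K, ι x ∈ O ↔ x ∈ I) → (2 : K) ≠ 0 →
    ∀ A B : Matrix (Fin 3) (Fin 3) K, Aᵀ = A → Bᵀ = B → A.det ≠ 0 → B.det ≠ 0 →
    IsSquare (A.det * B.det) → SplM 1 (A.map ι) → SplM 1 (B.map ι) → Near I A B

/-- LSR: a real place.  (`h` is a square modulo `f`: the real root gives a positive number.) -/
def LSRStmt : Prop :=
  ∀ (f h : ℝ[X]), f.Monic → f.natDegree = 3 → Squarefree f → (∃! x : ℝ, f.eval x = 0) →
    IsCoprime h f → NSq f h → CongR (gr 0 3 f h) (gr 0 3 f 1)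

end Pool.NF
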