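import Pool.Agent.H29.NF.A
import Pool.Agent.H46.NF.BXL
import Pool.Agent.H46.NF.BXU

/-!
# NF, row ALLN: the number of all polynomials
-/

set_option autoImplicit false
set_option linter.unusedSectionVars false
set_option linter.unusedSimpArgs false

namespace Pool.NF

open Polynomial NumberField

namespace ALLN

variable {K : Type} [Field K] [NumberField K]

/-- The cubic polynomial with the given coefficients. -/
noncomputable def toF (p : 𝓞 K × 𝓞 K × 𝓞 K) : (𝓞 K)[X] :=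
  X ^ 3 + C p.1 * X ^ 2 + C p.2.1 * X + C p.2.2

theorem c3 (p : 𝓞 K × 𝓞 K × 𝓞 K) : (toF p).coeff 3 = 1 := by
  simp [toF, coeff_X, coeff_C]

theorem c2 (p : 𝓞 K × 𝓞 K × 𝓞 K) : (toF p).coeff 2 = p.1 := by
  simp [toF, coeff_X, coeff_C, coeff_X_pow]

theorem c1 (p : 𝓞 K × 𝓞 K × 𝓞 K) : (toF p).coeff 1 = p.2.1 := by
  simp [toF, coeff_X, coeff_C, coeff_X_pow]

theorem c0 (p : 𝓞 K × 𝓞 K × 𝓞 K) : (toF p).coeff 0 = p.2.2 := by
  simp [toF, coeff_X, coeff_C, coeff_X_pow]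

theorem ndeg (p : 𝓞 K × 𝓞 K × 𝓞 K) : (toF p).natDegree = 3 := by
  unfold toF
  compute_degree!

theorem mon (p : 𝓞 K × 𝓞 K × 𝓞 K) : (toF p).Monic := by
  unfold toF
  monicity!

theorem inj : Function.Injective (toF (K := K)) := by
  intro p q h
  have h2 := congrArg (fun f => f.coeff 2) h
  have h1 := congrArg (fun f => f.coeff 1) h
  have h0 := congrArg (fun f => f.coeff 0) h
  simp only [c2, c1, c0] at h2 h1 h0
  exact Prod.ext h2 (Prod.ext h1 h0)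

theorem surj {f : (𝓞 K)[X]} (hf : f.Monic) (hn : f.natDegree = 3) :
    toF (f.coeff 2, f.coeff 1, f.coeff 0) = f := by
  ext i
  rcases Nat.lt_or_ge i 4 with h | h
  · interval_cases i
    · rw [c0]
    · rw [c1]
    · rw [c2]
    · rw [c3]
      have h9 : f.coeff f.natDegree = 1 := hf
      rw [hn] at h9
      rw [h9]
  · rw [coeff_eq_zero_of_natDegree_lt (by rw [ndeg]; omega),
      coeff_eq_zero_of_natDegree_lt (by rw [hn]; omega)]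

theorem one_mem : (1 : 𝓞 K) ∈ Bx K 1 := by
  intro σ
  simp

theorem zero_mem {ρ : ℝ} (h : 0 ≤ ρ) : (0 : 𝓞 K) ∈ Bx K ρ := by
  intro σ
  simpa using h

theorem all_eq (Y : ℝ) :
    AllN K Y = toF '' (Bx K Y ×ˢ (Bx K (Y ^ 2) ×ˢ Bx K (Y ^ 3))) := by
  ext f
  constructor
  · rintro ⟨h1, h2, h3⟩
    refine ⟨(f.coeff 2, f.coeff 1, f.coeff 0), ?_, surj h1 h2⟩
    have a1 := h3 1 (by omega)
    have a2 := h3 2 (by omega)
    have a3 := h3 3 (by omega)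
    rw [pow_one] at a1
    exact ⟨a1, a2, a3⟩
  · rintro ⟨p, ⟨h1, h2, h3⟩, rfl⟩
    refine ⟨mon p, ndeg p, ?_⟩
    intro i hi
    interval_cases i
    · rw [c3, pow_zero]
      exact one_mem
    · rw [c2, pow_one]
      exact h1
    · rw [c1]
      exact h2
    · rw [c0]
      exact h3

theorem zer_eq (Y : ℝ) (hY : 0 ≤ Y) :
    {f ∈ AllN K Y | f.coeff 2 = 0} =
      toF '' (({0} : Set (𝓞 K)) ×ˢ (Bx K (Y ^ 2) ×ˢ Bx K (Y ^ 3))) := by
  ext f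
  rw [all_eq]
  constructor
  · rintro ⟨⟨p, ⟨h1, h2, h3⟩, rfl⟩, h4⟩
    rw [c2] at h4
    exact ⟨p, ⟨h4, h2, h3⟩, rfl⟩
  · rintro ⟨p, ⟨h1, h2, h3⟩, rfl⟩
    rw [Set.mem_singleton_iff] at h1
    refine ⟨⟨p, ⟨?_, h2, h3⟩, rfl⟩, ?_⟩
    · rw [h1]
      exact zero_mem hY
    · rw [c2]
      exact h1

theorem ni_top : Ni (⊤ : Ideal (𝓞 K)) = 1 := by
  rw [ni_eq]
  exact Ideal.absNorm_top

theorem upper : ∃ C : ℝ, 1 ≤ C ∧ ∀ ρ : ℝ, 1 ≤ ρ → ((Bx K ρ).ncard : ℝ) ≤ C * ρ ^ dg K := by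
  obtain ⟨C, hC, h⟩ := bxu K
  refine ⟨2 * C + 1, by linarith, ?_⟩
  intro ρ hρ
  have h1 := (h ⊤ top_ne_bot 0 ρ (by linarith)).2
  have e1 : {x ∈ Bx K ρ | x - 0 ∈ (⊤ : Ideal (𝓞 K))} = Bx K ρ := by
    ext x
    simp
  rw [e1, ni_top, Nat.cast_one, div_one] at h1
  have h2 : (1 : ℝ) ≤ ρ ^ dg K := one_le_pow₀ hρ
  nlinarith

end ALLN

open ALLN in
/-- **ALLN.** -/
theorem alln : ALLNStmt := by
  intro K _ _
  obtain ⟨C, hC, hU⟩ := upper (K := K)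
  obtain ⟨c, hc, hL, -⟩ := bxl K
  have hC0 : (0 : ℝ) < C := by linarith
  refine ⟨c ^ 3, C ^ 3, by positivity, by positivity, ?_⟩
  intro Y hY
  have hY0 : (0 : ℝ) < Y := by linarith
  have hY2 : (1 : ℝ) ≤ Y ^ 2 := one_le_pow₀ hY
  have hY3 : (1 : ℝ) ≤ Y ^ 3 := one_le_pow₀ hY
  obtain ⟨u1, hu1⟩ : ∃ u : ℝ, u = (Bx K Y).ncard := ⟨_, rfl⟩
  obtain ⟨u2, hu2⟩ : ∃ u : ℝ, u = (Bx K (Y ^ 2)).ncard := ⟨_, rfl⟩
  obtain ⟨u3, hu3⟩ : ∃ u : ℝ, u = (Bx K (Y ^ 3)).ncard := ⟨_, rfl⟩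
  have hf1 := bx_finite (K := K) Y
  have hf2 := bx_finite (K := K) (Y ^ 2)
  have hf3 := bx_finite (K := K) (Y ^ 3)
  have p2 : 0 < (Bx K (Y ^ 2)).ncard :=
    (Set.ncard_pos hf2).2 ⟨0, zero_mem (by linarith)⟩
  have p3 : 0 < (Bx K (Y ^ 3)).ncard :=
    (Set.ncard_pos hf3).2 ⟨0, zero_mem (by linarith)⟩
  have U1 := hU Y hY
  have U2 := hU (Y ^ 2) hY2
  have U3 := hU (Y ^ 3) hY3
  have L1 := hL Y hY
  have L2 := hL (Y ^ 2) hY2
  have L3 := hL (Y ^ 3) hY3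
  rw [← hu1] at U1 L1
  rw [← hu2] at U2 L2
  rw [← hu3] at U3 L3
  have e1 : (AllN K Y).ncard =
      (Bx K Y).ncard * ((Bx K (Y ^ 2)).ncard * (Bx K (Y ^ 3)).ncard) := by
    rw [all_eq, Set.ncard_image_of_injective _ inj, Set.ncard_prod, Set.ncard_prod]
  have e2 : {f ∈ AllN K Y | f.coeff 2 = 0}.ncard =
      (Bx K (Y ^ 2)).ncard * (Bx K (Y ^ 3)).ncard := by
    rw [zer_eq Y hY0.le, Set.ncard_image_of_injective _ inj, Set.ncard_prod, Set.ncard_prod,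
      Set.ncard_singleton, one_mul]
  have e3 : ((AllN K Y).ncard : ℝ) = u1 * (u2 * u3) := by
    rw [e1]
    push_cast
    rw [hu1, hu2, hu3]
  have e4 : ({f ∈ AllN K Y | f.coeff 2 = 0}.ncard : ℝ) = u2 * u3 := by
    rw [e2]
    push_cast
    rw [hu2, hu3]
  obtain ⟨y, hy⟩ : ∃ y : ℝ, y = Y ^ dg K := ⟨_, rfl⟩
  have y2 : (Y ^ 2) ^ dg K = y ^ 2 := by rw [hy]; ring
  have y3 : (Y ^ 3) ^ dg K = y ^ 3 := by rw [hy]; ring
  have y6 : Y ^ (6 * dg K) = y ^ 6 := by rw [hy]; ring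
  have y5 : Y ^ (5 * dg K) = y ^ 5 := by rw [hy]; ring
  rw [← hy] at U1 L1
  rw [y2] at U2 L2
  rw [y3] at U3 L3
  have hy1 : 1 ≤ y := by rw [hy]; exact one_le_pow₀ hY
  have hy0 : 0 < y := by linarith
  have g23 : u2 * u3 ≤ C ^ 2 * y ^ 5 := by
    calc u2 * u3 ≤ (C * y ^ 2) * (C * y ^ 3) := by
          refine mul_le_mul U2 U3 ?_ (by positivity)
          rw [hu3]
          positivity
      _ = C ^ 2 * y ^ 5 := by ring
  have h23 : c ^ 2 * y ^ 5 ≤ u2 * u3 := by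
    calc c ^ 2 * y ^ 5 = (c * y ^ 2) * (c * y ^ 3) := by ring
      _ ≤ u2 * u3 := by
          refine mul_le_mul L2 L3 (by positivity) ?_
          rw [hu2]
          positivity
  have hu23 : 0 ≤ u2 * u3 := by
    rw [hu2, hu3]
    positivity
  refine ⟨?_, ?_, ?_, ?_, ?_, hf1, ?_⟩
  · rw [all_eq]
    exact (hf1.prod (hf2.prod hf3)).image _
  · rw [e3, y6]
    calc c ^ 3 * y ^ 6 = (c * y) * (c ^ 2 * y ^ 5) := by ring
      _ ≤ u1 * (u2 * u3) := by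
          refine mul_le_mul L1 h23 (by positivity) ?_
          rw [hu1]
          positivity
  · rw [e3, y6]
    calc u1 * (u2 * u3) ≤ (C * y) * (C ^ 2 * y ^ 5) :=
          mul_le_mul U1 g23 hu23 (by positivity)
      _ = C ^ 3 * y ^ 6 := by ring
  · rw [e2]
    exact Nat.mul_pos p2 p3
  · rw [e4, y5]
    refine g23.trans ?_
    have : C ^ 2 ≤ C ^ 3 := by nlinarith [sq_nonneg C]
    exact mul_le_mul_of_nonneg_right this (by positivity)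
  · rw [← hu1, ← hy]
    refine U1.trans ?_
    have : C ≤ C ^ 3 := by nlinarith [sq_nonneg C, mul_pos hC0 hC0]
    exact mul_le_mul_of_nonneg_right this hy0.le

end Pool.NF
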