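import Pool.Agent.H2.NF.S3
import Pool.Agent.H85.NF.Q

/-!
# NF: RCLZ, from the form of reciprocity over `ℚ` of H85/NF/Q
-/

set_option autoImplicit false

namespace Pool.NF.RCLZ2

open Polynomial Matrix Pool.HYP Pool.TOW Pool.AVS Pool.T1 Pool.NF

theorem mul_mem (p : ℕ) {x : ℚ} (hx : x ∈ IZ p) : (p : ℚ) * x ∈ IZ p := by
  intro h
  apply hx
  have h1 := Rat.mul_den_dvd (p : ℚ) x
  rw [Rat.den_natCast, one_mul] at h1
  exact h.trans h1

theorem locQ {ι : Type} [Fintype ι] [DecidableEq ι] (p : ℕ) (G : Matrix ι ι ℚ) (m : ℕ)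
    (δ : ZMod p) (h : LocZ p G m δ) : LocQ p G (2 * m) ((-1) ^ m * δ) := by
  obtain ⟨g, κ, i1, i2, u, h1, h2, h3, h4, h5, h6, h7⟩ := h
  refine ⟨g, κ, i1, i2, u, h1, h2, h3, h4, ?_, h6, ?_⟩
  · intro e i
    have k1 := h6 ((p : ℚ) • u e) (by
      intro i
      rw [mulVec_smul, mulVec_smul, Pi.smul_apply, smul_eq_mul]
      exact mul_mem p (h4 e i)) (by
      intro e'
      rw [smul_dotProduct, smul_eq_mul]
      exact h5 e e') i
    rw [mulVec_smul, Pi.smul_apply, smul_eq_mul] at k1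
    exact k1
  · rw [h7, ← mul_assoc, ← mul_pow, neg_mul_neg, one_mul, one_pow, one_mul]
    rfl

/-- RCLZ -/
theorem rclz (h : RCLQStmt) : RCLZStmt := by
  intro ι _ _ A B hAt hBt hA hB _ hnear hcong T m δ hT hL hout
  have h1 := h ι A B T m (fun p => (-1) ^ m p * δ p) hAt hBt hA hB hT (by
    intro p hp
    refine ⟨locQ p _ (m p) (δ p) (hL p hp).1, ?_⟩
    have : Fact p.Prime := ⟨(hT p hp).1⟩
    exact mul_ne_zero (pow_ne_zero _ (neg_ne_zero.2 one_ne_zero)) (hL p hp).2) (by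
    intro p hp hpT
    exact hout p hp.1 hp.2 hpT) hnear hcong
  have h2 : ∀ p, (-1 : ZMod p) ^ m p * ((-1) ^ m p * δ p) = δ p := by
    intro p
    rw [← mul_assoc, ← mul_pow, neg_mul_neg, one_mul, one_pow, one_mul]
  simp only [h2] at h1
  exact h1

end Pool.NF.RCLZ2
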