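import Pool.Agent.H2.NF.S3
import Pool.Agent.H81.T1.SEMC

/-!
# NF, SEMCN: a basis at the primes not dividing the discriminant
-/

set_option autoImplicit false

namespace Pool.NF

open Polynomial Matrix Pool.HYP Pool.TOW Pool.AVS Pool.T1 IsDedekindDomain NumberField

namespace Semcn

/-- `IZ p` as a subring. -/
def izS {p : ℕ} (hp : p.Prime) : Subring ℚ where
  carrier := IZ p
  mul_mem' := by
    intro x y hx hy h
    rcases (Nat.Prime.dvd_mul hp).1 (h.trans (Rat.mul_den_dvd x y)) with h1 | h1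
    · exact hx h1
    · exact hy h1
  one_mem' := by
    change ¬ p ∣ (1 : ℚ).den
    rw [Rat.den_one]
    exact hp.one_lt.ne' ∘ Nat.dvd_one.1
  add_mem' := by
    intro x y hx hy h
    rcases (Nat.Prime.dvd_mul hp).1 (h.trans (Rat.add_den_dvd x y)) with h1 | h1
    · exact hx h1
    · exact hy h1
  zero_mem' := by
    change ¬ p ∣ (0 : ℚ).den
    rw [Rat.den_zero]
    exact hp.one_lt.ne' ∘ Nat.dvd_one.1
  neg_mem' := by
    intro x hx
    change ¬ p ∣ (-x).den
    rw [Rat.neg_den]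
    exact hx

variable {K : Type} [Field K] [NumberField K]

theorem is_int {p : ℕ} {a : K} (ha : IsIntegral ℤ a) : a ∈ IS K p := by
  intro P _
  exact Semc.rp_int (R := 𝓞 K) (⟨a, ha⟩ : 𝓞 K)

theorem is_mul {p : ℕ} {a b : K} (ha : a ∈ IS K p) (hb : b ∈ IS K p) :
    a * b ∈ IS K p := fun P hP => Semc.rp_mul (ha P hP) (hb P hP)

end Semcn

open Semcn Semc in
theorem semcn (hA : SEMANStmt) (hB : SEMBNStmt) : SEMCNStmt := by
  intro K _ _ n ω p hp hG a
  have hω : ∀ i, ω i ∈ IS K p := fun i => is_int (hG.1 i)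
  have h1 : a ∈ IS K p → ∀ i, Algebra.trace ℚ K (a * ω i) ∈ IZ p :=
    fun ha i => (hB K p hp _ (Semcn.is_mul ha (hω i))).2.1
  have hD : ∀ i j, trd ω i j ∈ izS hp :=
    fun i j => (hB K p hp _ (Semcn.is_mul (hω i) (hω j))).2.1
  have h2 : (∀ i, Algebra.trace ℚ K (a * ω i) ∈ IZ p) → ∀ i, ω.repr a i ∈ IZ p := by
    intro h i
    refine solve (izS hp) (trd ω) hD hG.2.1 hG.2.2.2 (fun i => ω.repr a i) (fun j => ?_) i
    have h3 : (trd ω *ᵥ fun i => ω.repr a i) j = Algebra.trace ℚ K (a * ω j) := by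
      have h4 : a * ω j = ∑ i, ω.repr a i • (ω j * ω i) := by
        conv_lhs => rw [← ω.sum_repr a, Finset.sum_mul]
        refine Finset.sum_congr rfl fun i _ => ?_
        rw [smul_mul_assoc, mul_comm]
      rw [h4, map_sum]
      change ∑ i, trd ω j i * ω.repr a i = _
      refine Finset.sum_congr rfl fun i _ => ?_
      rw [map_smul, smul_eq_mul, mul_comm]
      rfl
    rw [h3]
    exact h j
  have h3 : (∀ i, ω.repr a i ∈ IZ p) → a ∈ IS K p := by
    intro h P hP
    rw [← ω.sum_repr a]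
    refine rp_sum _ _ fun i _ => ?_
    rw [Algebra.smul_def]
    exact rp_mul (((hA K).2.2.2 p hp P hP).1 _ |>.2 (h i)) (hω i P hP)
  exact ⟨⟨fun ha => h2 (h1 ha), h3⟩, ⟨h1, fun h => h3 (h2 h)⟩⟩

end Pool.NF
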