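import Pool.Agent.H29.NF.A
import Pool.Agent.H33.HYP.TWS

/-!
# NF, row SQSN: scaling of the roots by a square does not change the Selmer group
-/

set_option autoImplicit false

namespace Pool.NF

open Polynomial Pool.HYP Pool.TOW Pool.T1

namespace SQSN

/-- Local solvability and scaling. -/
theorem loc_scale {L : Type} [Field L] (g f p : L[X]) (e : L) (he : e ≠ 0) (n : ℕ)
    (hg : g.comp (C (e ^ 2) * X) = C ((e ^ 2) ^ n) * f) (h : LocSol g p) :
    LocSol f (p.comp (C (e ^ 2) * X)) := by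
  obtain ⟨u, w, s, h1, h2, h3, h4⟩ := h
  obtain ⟨δ, hδ⟩ : ∃ δ : L, δ = e ^ 2 := ⟨_, rfl⟩
  have hδ0 : δ ≠ 0 := by
    rw [hδ]
    exact pow_ne_zero _ he
  rw [← hδ] at hg ⊢
  obtain ⟨m, hm⟩ : ∃ m : ℕ, m = u.natDegree := ⟨_, rfl⟩
  have hc1 : (C (δ ^ m) : L[X]) * C ((δ ^ m)⁻¹) = 1 := by
    rw [← C_mul, mul_inv_cancel₀ (pow_ne_zero _ hδ0), C_1]
  have hc2 : (C (δ ^ n) : L[X]) * C ((δ ^ n)⁻¹) = 1 := by
    rw [← C_mul, mul_inv_cancel₀ (pow_ne_zero _ hδ0), C_1]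
  have hce : (C (e ^ n) : L[X]) * C ((e ^ n)⁻¹) = 1 := by
    rw [← C_mul, mul_inv_cancel₀ (pow_ne_zero _ he), C_1]
  have hcf : (C (e ^ m) : L[X]) * C ((e ^ m)⁻¹) = 1 := by
    rw [← C_mul, mul_inv_cancel₀ (pow_ne_zero _ he), C_1]
  have hdn : (C (δ ^ n) : L[X]) = C (e ^ n) ^ 2 := by
    rw [hδ, ← C_pow]
    congr 1
    ring
  have hdm : (C (δ ^ m) : L[X]) = C (e ^ m) ^ 2 := by
    rw [hδ, ← C_pow]
    congr 1
    ring
  have hdeg : (u.comp (C δ * X)).natDegree = m := by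
    rw [natDegree_comp, natDegree_C_mul_X _ hδ0, mul_one, hm]
  have hlead : (u.comp (C δ * X)).leadingCoeff = δ ^ m := by
    rw [leadingCoeff_comp (by rw [natDegree_C_mul_X _ hδ0]; exact one_ne_zero), h1.leadingCoeff,
      one_mul, leadingCoeff_mul, leadingCoeff_C, leadingCoeff_X, mul_one, hm]
  obtain ⟨v, hv⟩ : ∃ v : L[X], v = C ((δ ^ m)⁻¹) * u.comp (C δ * X) := ⟨_, rfl⟩
  have huv : u.comp (C δ * X) = C (δ ^ m) * v := by
    rw [hv]
    linear_combination (-(u.comp (C δ * X))) * hc1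
  have hvm : v.Monic := by
    rw [hv]
    unfold Monic
    rw [leadingCoeff_mul, leadingCoeff_C, hlead, inv_mul_cancel₀ (pow_ne_zero _ hδ0)]
  have hvd : v.natDegree = m := by
    rw [hv, natDegree_C_mul (inv_ne_zero (pow_ne_zero _ hδ0)), hdeg]
  refine ⟨v, C ((e ^ n)⁻¹) * w.comp (C δ * X), C ((e ^ m)⁻¹) * s.comp (C δ * X), hvm, ?_, ?_, ?_⟩
  · obtain ⟨a, b, hab⟩ := h2
    have h5 := congrArg (fun q => q.comp (C δ * X)) hab
    simp only [add_comp, mul_comp, one_comp] at h5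
    rw [hg, huv] at h5
    exact ⟨a.comp (C δ * X) * C (δ ^ m), b.comp (C δ * X) * C (δ ^ n), by linear_combination h5⟩
  · obtain ⟨r, hr⟩ := h3
    have h5 := congrArg (fun q => q.comp (C δ * X)) hr
    simp only [sub_comp, mul_comp, pow_comp] at h5
    rw [hg, huv] at h5
    refine ⟨C ((δ ^ n)⁻¹) * C (δ ^ m) * r.comp (C δ * X), ?_⟩
    have h6 : (C ((e ^ n)⁻¹) : L[X]) ^ 2 = C ((δ ^ n)⁻¹) := by
      rw [hδ, ← C_pow]
      congr 1
      rw [inv_pow]
      congr 1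
      ring
    rw [mul_pow, h6]
    linear_combination C ((δ ^ n)⁻¹) * h5 + f * hc2
  · obtain ⟨r, hr⟩ := h4
    have h5 := congrArg (fun q => q.comp (C δ * X)) hr
    simp only [sub_comp, mul_comp, pow_comp, neg_comp, one_comp] at h5
    rw [hg, huv] at h5
    refine ⟨C ((δ ^ m)⁻¹) * C (δ ^ n) * r.comp (C δ * X), ?_⟩
    have h6 : (C ((e ^ m)⁻¹) : L[X]) ^ 2 = C ((δ ^ m)⁻¹) := by
      rw [hδ, ← C_pow]
      congr 1
      rw [inv_pow]
      congr 1
      ring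
    rw [mul_pow, h6, hvd]
    rw [← hm] at h5
    linear_combination C ((δ ^ m)⁻¹) * h5 - (-1) ^ m * v * hc1

open Pool.HYP.H33 in
/-- One half of SQSN. -/
theorem half {K : Type} [Field K] (f : K[X]) (e : K) (he : e ≠ 0)
    (h : SelK f) : SelK (f.scaleRoots (e ^ 2)) := by
  intro p hcop hN hloc
  have hδ0 : e ^ 2 ≠ 0 := pow_ne_zero _ he
  have hA : IsCoprime (p.comp (C (e ^ 2) * X)) f := by
    have h1 := hcop.map (scE (e ^ 2) hδ0).toRingEquiv.toRingHom
    have h2 : IsCoprime (p.comp (C (e ^ 2) * X))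
      ((f.scaleRoots (e ^ 2)).comp (C (e ^ 2) * X)) := h1
    rw [comp_scale] at h2
    exact h2.of_mul_right_right
  have hB : IsSquare (Algebra.norm K (AdjoinRoot.mk f (p.comp (C (e ^ 2) * X)))) := by
    rw [norm_scale _ _ _ hδ0]
    exact hN
  have hD : ∀ (L : Type) [Field L] (O : ValuationSubring L) (ι : K →+* L), Cpl K L O ι →
      LocSol (f.map ι) ((p.comp (C (e ^ 2) * X)).map ι) := by
    intro L _ O ι hL
    have hιe : ι e ≠ 0 := (map_ne_zero ι).2 he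
    have h3 := loc_scale ((f.scaleRoots (e ^ 2)).map ι) (f.map ι) (p.map ι) (ι e) hιe f.natDegree
      ?_ (hloc L O ι hL)
    · rw [map_comp, Polynomial.map_mul, map_C, map_X, map_pow]
      exact h3
    · have h4 : ((f.scaleRoots (e ^ 2)).comp (C (e ^ 2) * X)).map ι =
          (C ((e ^ 2) ^ f.natDegree) * f).map ι := by
        rw [comp_scale]
      have e1 : ι (e ^ 2) = ι e ^ 2 := map_pow _ _ _
      have e2 : ι ((e ^ 2) ^ f.natDegree) = (ι e ^ 2) ^ f.natDegree := by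
        rw [map_pow, e1]
      rw [Polynomial.map_comp, Polynomial.map_mul, Polynomial.map_mul, Polynomial.map_C,
        Polynomial.map_X, Polynomial.map_C, e1, e2] at h4
      exact h4
  obtain ⟨s, hs⟩ := h _ hA hB hD
  obtain ⟨s', rfl⟩ := (scE (e ^ 2) hδ0).surjective s
  refine ⟨s', ?_⟩
  rw [← dvd_scale _ _ _ hδ0, sub_comp, pow_comp]
  exact hs

end SQSN

open SQSN in
/-- **SQSN.** -/
theorem sqsn : SQSNStmt := by
  intro K _ f e _ he
  constructor
  · intro h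
    have h1 := half (f.scaleRoots (e ^ 2)) e⁻¹ (inv_ne_zero he) h
    rw [← scaleRoots_mul, inv_pow, mul_inv_cancel₀ (pow_ne_zero _ he), scaleRoots_one] at h1
    exact h1
  · exact half f e he

end Pool.NF
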