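import Pool.Agent.H2.NF.S3

/-!
# NF: RCLQ, reciprocity over `ℚ`
-/

set_option autoImplicit false

namespace Pool.NF.RCLQ2

open Polynomial Matrix Pool.HYP Pool.TOW Pool.AVS Pool.T1 Pool.NF

theorem rQ_equiv {ι κ : Type} [Fintype ι] [Fintype κ] (e : ι ≃ κ) (p : ℕ) (x : κ → ℚ) :
    rQ p (x ∘ e) = rQ p x := by
  classical
  rw [rQ, rQ, Finset.card_filter, Finset.card_filter]
  exact Equiv.sum_comp e (fun i => if Odd (padicValRat p (x i)) then 1 else 0)

theorem sQ_equiv {ι κ : Type} [Fintype ι] [Fintype κ] (e : ι ≃ κ) (p : ℕ) (x : κ → ℚ) :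
    sQ p (x ∘ e) = sQ p x := by
  classical
  rw [sQ, sQ, rQ_equiv, Finset.prod_filter, Finset.prod_filter]
  congr 1
  exact Equiv.prod_comp e (fun i => if Odd (padicValRat p (x i)) then
    rz p (x i / (p : ℚ) ^ padicValRat p (x i)) else 1)

theorem parity {ι : Type} (s : Finset ι) (v : ι → ℤ) :
    Even (s.filter fun i => Odd (v i)).card ↔ Even (∑ i ∈ s, v i) := by
  classical
  induction s using Finset.induction_on with
  | empty => simp
  | insert i s hi ih =>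
    rw [Finset.filter_insert, Finset.sum_insert hi]
    by_cases h : Odd (v i)
    · rw [if_pos h, Finset.card_insert_of_notMem (by simp [hi]), Nat.even_add_one, ih,
        Int.even_add]
      have : ¬ Even (v i) := Int.not_even_iff_odd.2 h
      tauto
    · rw [if_neg h, ih, Int.even_add]
      have : Even (v i) := Int.not_odd_iff_even.1 h
      tauto

theorem val_prod {ι : Type} (p : ℕ) [Fact p.Prime] (s : Finset ι) (x : ι → ℚ)
    (hx : ∀ i, x i ≠ 0) : padicValRat p (∏ i ∈ s, x i) = ∑ i ∈ s, padicValRat p (x i) := by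
  classical
  induction s using Finset.induction_on with
  | empty => simp
  | insert i s hi ih =>
    rw [Finset.prod_insert hi, Finset.sum_insert hi,
      padicValRat.mul (hx i) (Finset.prod_ne_zero_iff.2 fun j _ => hx j), ih]

theorem even_of_sq {ι : Type} [Fintype ι] (p : ℕ) (hp : p.Prime) (x : ι → ℚ)
    (hx : ∀ i, x i ≠ 0) (h : IsSquare (∏ i, x i) ∨ IsSquare (-∏ i, x i)) : Even (rQ p x) := by
  have : Fact p.Prime := ⟨hp⟩
  rw [rQ, parity, ← val_prod p _ x hx]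
  have h0 : ∏ i, x i ≠ 0 := Finset.prod_ne_zero_iff.2 (fun i _ => hx i)
  rcases h with ⟨y, hy⟩ | ⟨y, hy⟩
  · have hy0 : y ≠ 0 := by
      rintro rfl
      rw [mul_zero] at hy
      exact h0 hy
    rw [hy, padicValRat.mul hy0 hy0]
    exact ⟨_, rfl⟩
  · have hy0 : y ≠ 0 := by
      rintro rfl
      rw [mul_zero] at hy
      exact h0 (neg_eq_zero.1 hy)
    rw [← padicValRat.neg, hy, padicValRat.mul hy0 hy0]
    exact ⟨_, rfl⟩

/-- RCLQ for a diagonalised form -/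
theorem core (hHRQ : HRQStmt) (hDGQ : DGQStmt) (hUNQ : UNQStmt) (hLBQ : LBQStmt)
    {M : ℕ} {ι : Type} [Fintype ι] [DecidableEq ι] (e : ι ≃ Fin M)
    (G H : Matrix (ι ⊕ ι) (ι ⊕ ι) ℚ) (hH : H.det ≠ 0) (b c : Fin M → ℚ) (hb : ∀ i, b i ≠ 0)
    (hc : ∀ i, 0 < c i) (hc8 : ∀ i, (c i - 1) / 8 ∈ IZ 2) (hcs : IsSquare (∏ i, c i))
    (hD : Hᵀ * G * H = Matrix.diagonal
      (Sum.elim (fun i => b (e i) * c (e i)) (fun i => -b (e i))))
    (T : Finset ℕ) (m : ℕ → ℕ) (δ : ∀ p : ℕ, ZMod p) (hT : ∀ p ∈ T, p.Prime ∧ p ≠ 2)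
    (hL : ∀ p ∈ T, LocZ p G (m p) (δ p) ∧ δ p ≠ 0)
    (hout : ∀ p : ℕ, p.Prime → p ≠ 2 → p ∉ T → ∃ g : Matrix (ι ⊕ ι) (ι ⊕ ι) ℚ, g.det ≠ 0 ∧
        GInI (IZ p) (gᵀ * G * g)) :
    Even {p | p ∈ T ∧ ¬ IsSquare (δ p)}.ncard := by
  have hc0 : ∀ i, c i ≠ 0 := fun i => (hc i).ne'
  obtain ⟨y, hy⟩ : ∃ y : Fin M ⊕ Fin M → ℚ,
      y = Sum.elim (fun i => b i * c i) (fun i => -b i) := ⟨_, rfl⟩
  obtain ⟨x, hx⟩ : ∃ x : ι ⊕ ι → ℚ,
      x = Sum.elim (fun i => b (e i) * c (e i)) (fun i => -b (e i)) := ⟨_, rfl⟩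
  have hxy : x = y ∘ (Equiv.sumCongr e e) := by
    rw [hx, hy]
    funext i
    rcases i with i | i <;> rfl
  have hx0 : ∀ i, x i ≠ 0 := by
    rw [hx]
    rintro (i | i)
    · exact mul_ne_zero (hb _) (hc0 _)
    · exact neg_ne_zero.2 (hb _)
  rw [← hx] at hD
  have hev : ∀ p : ℕ, p.Prime → Even (rQ p x) := by
    intro p hp
    refine even_of_sq p hp x hx0 ?_
    have h1 : ∏ i, x i = (-1) ^ M * ((∏ i, b i) ^ 2 * ∏ i, c i) := by
      rw [hxy, show ∏ i, (y ∘ (Equiv.sumCongr e e)) i = ∏ i, y i from Equiv.prod_comp _ y, hy,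
        Fintype.prod_sum_type]
      simp only [Sum.elim_inl, Sum.elim_inr, Finset.prod_mul_distrib]
      rw [show ∏ i : Fin M, -b i = (-1) ^ M * ∏ i, b i by
        rw [Finset.prod_neg, Finset.card_univ, Fintype.card_fin]]
      ring
    have h2 : IsSquare ((∏ i, b i) ^ 2 * ∏ i, c i) := by
      obtain ⟨z, hz⟩ := hcs
      exact ⟨(∏ i, b i) * z, by rw [hz]; ring⟩
    rcases Nat.even_or_odd M with hM | hM
    · left
      rw [h1, hM.neg_one_pow, one_mul]
      exact h2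
    · right
      rw [h1, hM.neg_one_pow, neg_one_mul, neg_neg]
      exact h2
  have hdet : (Matrix.diagonal x).det ≠ 0 := by
    rw [det_diagonal]
    exact Finset.prod_ne_zero_iff.2 fun i _ => hx0 i
  have key : ∀ (p : ℕ) (m : ℕ) (δ : ZMod p), p.Prime → LocZ p G m δ → δ ≠ 0 →
      (IsSquare δ ↔ IsSquare (sQ p y)) := by
    intro p m δ hp h1 h2
    obtain ⟨k1, -, -⟩ := hLBQ p hp (ι ⊕ ι) (Fin 0) G H 1 1 m δ hH
    have h3 := k1.2 h1
    rw [hD] at h3
    obtain ⟨k2, k3⟩ := hDGQ p hp (ι ⊕ ι) x hx0 (hev p hp)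
    rw [hUNQ p hp (ι ⊕ ι) _ (diagonal_transpose x) hdet m _ δ _ h3 k2 h2 k3, hxy, sQ_equiv]
  have hout2 : ∀ p : ℕ, p.Prime → p ≠ 2 → p ∉ T → IsSquare (sQ p y) := by
    intro p hp hp2 hpT
    have : Fact p.Prime := ⟨hp⟩
    obtain ⟨g, hg, hg2⟩ := hout p hp hp2 hpT
    obtain ⟨-, k1, -⟩ := hLBQ p hp (ι ⊕ ι) (Fin 0) G g 1 1 0 1 hg
    exact (key p 0 1 hp (k1 hg2) one_ne_zero).1 IsSquare.one
  obtain ⟨-, h5⟩ := hHRQ M b c hb hc hc8 (fun p hp _ => even_of_sq p hp c hc0 (Or.inl hcs))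
  rw [← hy] at h5
  have h6 : {p | p ∈ T ∧ ¬ IsSquare (δ p)} =
      {p : ℕ | p.Prime ∧ p ≠ 2 ∧ ¬ IsSquare (sQ p y)} := by
    ext p
    constructor
    · rintro ⟨h7, h8⟩
      exact ⟨(hT p h7).1, (hT p h7).2, fun h9 =>
        h8 ((key p (m p) (δ p) (hT p h7).1 (hL p h7).1 (hL p h7).2).2 h9)⟩
    · rintro ⟨h7, h8, h9⟩
      have h10 : p ∈ T := by
        by_contra h
        exact h9 (hout2 p h7 h8 h)
      exact ⟨h10, fun h11 => h9 ((key p (m p) (δ p) h7 (hL p h10).1 (hL p h10).2).1 h11)⟩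
  rw [h6]
  exact h5

theorem rclq : RCLZAStmt := by
  intro hHRQ hDGQ hUNQ hLBQ hGSQ hNEAQ _ ι _ _ A B hAt hBt hA hB hsq hnear hcong T m δ hT hL hout
  obtain ⟨M, ⟨e⟩⟩ : ∃ M, Nonempty (ι ≃ Fin M) := ⟨_, ⟨Fintype.equivFin ι⟩⟩
  obtain ⟨B', hB'⟩ : ∃ B' : Matrix (Fin M) (Fin M) ℚ, B' = B.submatrix e.symm e.symm := ⟨_, rfl⟩
  have hB't : B'ᵀ = B' := by rw [hB', transpose_submatrix, hBt]
  have hB'd : B'.det ≠ 0 := by rw [hB', det_submatrix_equiv_self]; exact hB
  obtain ⟨h, b, ε, a, hh, hb, hε, ha, hhB, hgs⟩ := hGSQ M B' hB't hB'd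
  obtain ⟨k, hk, hk2⟩ := hNEAQ ι A B hnear hcong ε a hε ha
  have hA2t : ((kᵀ * A * k).submatrix e.symm e.symm)ᵀ = (kᵀ * A * k).submatrix e.symm e.symm := by
    rw [transpose_submatrix, transpose_mul, transpose_mul, transpose_transpose, hAt,
      Matrix.mul_assoc]
  obtain ⟨u, c, hu, hc, hc8, huA⟩ := hgs ((kᵀ * A * k).submatrix e.symm e.symm) hA2t (by
    intro i j
    have h1 := hk2 (e.symm i) (e.symm j)
    rw [hB']
    exact h1)
  have back : ∀ X : Matrix ι ι ℚ, (X.submatrix e.symm e.symm).submatrix e e = X := by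
    intro X
    ext i j
    rw [submatrix_apply, submatrix_apply, e.symm_apply_apply, e.symm_apply_apply]
  have sub3 : ∀ X Y Z : Matrix (Fin M) (Fin M) ℚ, (X * Y * Z).submatrix e e =
      X.submatrix e e * Y.submatrix e e * Z.submatrix e e := by
    intro X Y Z
    rw [submatrix_mul_equiv, submatrix_mul_equiv]
  have hdiag : ∀ y : Fin M → ℚ, (Matrix.diagonal y).submatrix e e =
      Matrix.diagonal (fun i => y (e i)) := by
    intro y
    ext i j
    rw [submatrix_apply, diagonal_apply, diagonal_apply]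
    by_cases hij : i = j
    · subst hij
      rw [if_pos rfl, if_pos rfl]
    · rw [if_neg hij, if_neg (fun h => hij (e.injective h))]
  -- congruences over `ι`
  have e1 : (k * u.submatrix e e)ᵀ * A * (k * u.submatrix e e) =
      Matrix.diagonal (fun i => b (e i) * c (e i)) := by
    have h1 := congrArg (fun X : Matrix (Fin M) (Fin M) ℚ => X.submatrix e e) huA
    simp only [sub3, back, hdiag] at h1
    rw [← h1, transpose_mul, transpose_submatrix]
    simp only [Matrix.mul_assoc]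
  have e2 : (h.submatrix e e)ᵀ * B * (h.submatrix e e) = Matrix.diagonal (fun i => b (e i)) := by
    have h1 := congrArg (fun X : Matrix (Fin M) (Fin M) ℚ => X.submatrix e e) hhB
    simp only [sub3, hB', back, hdiag] at h1
    rw [← h1, transpose_submatrix]
  have hku : (k * u.submatrix e e).det ≠ 0 := by
    rw [det_mul, det_submatrix_equiv_self]
    exact mul_ne_zero hk hu
  have hhe : (h.submatrix e e).det ≠ 0 := by
    rw [det_submatrix_equiv_self]
    exact hh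
  have hcs : IsSquare (∏ i, c i) := by
    have d1 := congrArg Matrix.det e1
    have d2 := congrArg Matrix.det e2
    rw [det_mul, det_mul, det_transpose, det_diagonal, Finset.prod_mul_distrib] at d1
    rw [det_mul, det_mul, det_transpose, det_diagonal] at d2
    rw [Equiv.prod_comp e b, Equiv.prod_comp e c] at d1
    rw [Equiv.prod_comp e b] at d2
    have hb0 : ∏ i, b i ≠ 0 := Finset.prod_ne_zero_iff.2 fun i _ => hb i
    obtain ⟨s, hs⟩ := hsq
    refine ⟨(k * u.submatrix e e).det * (h.submatrix e e).det * s / ∏ i, b i, ?_⟩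
    rw [div_mul_div_comm, eq_div_iff (mul_ne_zero hb0 hb0)]
    linear_combination ((k * u.submatrix e e).det ^ 2 * (h.submatrix e e).det ^ 2) * hs -
      ((h.submatrix e e).det * B.det * (h.submatrix e e).det) * d1 -
      ((∏ i, b i) * ∏ i, c i) * d2
  refine core hHRQ hDGQ hUNQ hLBQ e (Matrix.fromBlocks A 0 0 (-B))
    (Matrix.fromBlocks (k * u.submatrix e e) 0 0 (h.submatrix e e)) ?_ b c hb hc hc8 hcs ?_
    T m δ hT hL hout
  · rw [det_fromBlocks_zero₂₁]
    exact mul_ne_zero hku hhe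
  · rw [fromBlocks_transpose, fromBlocks_multiply, fromBlocks_multiply]
    simp only [transpose_zero, Matrix.mul_zero, Matrix.zero_mul, add_zero, zero_add]
    rw [e1, Matrix.mul_neg, Matrix.neg_mul, e2, diagonal_neg, fromBlocks_diagonal]

end Pool.NF.RCLQ2
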